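import Pool.Agent.MT100B.Stmts
import Pool.Agent.Helper69_MT.LA

/-! MT100B, module QUA: a linear functional vanishing on the exterior squares of all products of the
reflections `1 - 2 v_a ⊗ l_a` along the curve `v_a = exp (-aN) v` is zero. -/

set_option autoImplicit false

namespace Pool.Agent.MT100B.H6

open Matrix Polynomial Pool.Agent.MT100 Pool.Agent.MT100.H69

/-! ### the matrices `exp (x N)` and the form -/

theorem en_zero (r : ℕ) : en r (0 : ℝ) = 1 := by
  ext i j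
  simp only [en, Matrix.one_apply]
  by_cases h : i = j
  · subst h
    simp
  · rw [if_neg h]
    split_ifs with h2
    · have h3 : ((j : ℕ) - (i : ℕ)) ≠ 0 := by
        have h4 : (i : ℕ) ≤ j := h2
        have h5 : (i : ℕ) ≠ j := fun h => ‹¬ i = j› (Fin.ext h)
        omega
      rw [zero_pow h3, smul_zero]
    · rfl

theorem en_add (r : ℕ) (x y : ℝ) : en r (x + y) = en r x * en r y := by
  ext i j
  rw [Matrix.mul_apply]
  have h0 : ∀ k : Fin r, en r x i k * en r y k j =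
      (fun k : ℕ => if (i : ℕ) ≤ k ∧ k ≤ (j : ℕ) then
        ((k - (i : ℕ)).factorial : ℝ)⁻¹ * x ^ (k - (i : ℕ)) *
          ((((j : ℕ) - k).factorial : ℝ)⁻¹ * y ^ ((j : ℕ) - k)) else 0) (k : ℕ) := by
    intro k
    simp only [en, Rat.smul_def, Rat.cast_inv, Rat.cast_natCast]
    by_cases h1 : i ≤ k
    · by_cases h2 : k ≤ j
      · rw [if_pos h1, if_pos h2, if_pos ⟨h1, h2⟩]
      · rw [if_neg h2, mul_zero, if_neg]
        exact fun h => h2 h.2
    · rw [if_neg h1, zero_mul, if_neg]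
      exact fun h => h1 h.1
  rw [Finset.sum_congr rfl fun k _ => h0 k,
    Fin.sum_univ_eq_sum_range (fun k : ℕ => if (i : ℕ) ≤ k ∧ k ≤ (j : ℕ) then
        ((k - (i : ℕ)).factorial : ℝ)⁻¹ * x ^ (k - (i : ℕ)) *
          ((((j : ℕ) - k).factorial : ℝ)⁻¹ * y ^ ((j : ℕ) - k)) else 0) r, ← Finset.sum_filter]
  have h1 : (Finset.range r).filter (fun k : ℕ => (i : ℕ) ≤ k ∧ k ≤ (j : ℕ)) =
      Finset.Ico (i : ℕ) ((j : ℕ) + 1) := by
    ext k
    simp only [Finset.mem_filter, Finset.mem_range, Finset.mem_Ico]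
    have := j.2
    omega
  rw [h1, Finset.sum_Ico_eq_sum_range]
  simp only [en, Rat.smul_def, Rat.cast_inv, Rat.cast_natCast]
  by_cases h : i ≤ j
  · rw [if_pos h, add_pow, Finset.mul_sum]
    have h' : (i : ℕ) ≤ j := h
    have h2 : (j : ℕ) + 1 - i = (j : ℕ) - i + 1 := by omega
    rw [h2]
    refine Finset.sum_congr rfl fun k hk => ?_
    have hk' : k ≤ (j : ℕ) - i := Nat.lt_succ_iff.mp (Finset.mem_range.mp hk)
    rw [Nat.add_sub_cancel_left, ← Nat.sub_sub, Nat.cast_choose ℝ hk']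
    have f1 : (((j : ℕ) - i).factorial : ℝ) ≠ 0 := by positivity
    have f2 : (k.factorial : ℝ) ≠ 0 := by positivity
    have f3 : (((j : ℕ) - i - k).factorial : ℝ) ≠ 0 := by positivity
    field_simp
  · rw [if_neg h]
    have h' : ¬ (i : ℕ) ≤ j := h
    have h2 : (j : ℕ) + 1 - i = 0 := by omega
    rw [h2, Finset.range_zero, Finset.sum_empty]

theorem en_neg_mul (r : ℕ) (x : ℝ) : en r (-x) * en r x = 1 := by
  rw [← en_add, neg_add_cancel, en_zero]

/-- the real matrix of the pairing -/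
noncomputable def JR (r : ℕ) : Matrix (Fin r) (Fin r) ℝ := (J0 r).map (fun x => (x : ℝ))

theorem JR_apply (r : ℕ) (a b : Fin r) :
    JR r a b = if b = Fin.rev a then (-1) ^ (a : ℕ) else 0 := by
  have h1 : JR r a b = ((J0 r a b : ℚ) : ℝ) := rfl
  rw [h1, J0]
  by_cases h : b = Fin.rev a
  · rw [if_pos h, if_pos]
    · push_cast
      rfl
    · rw [h, Fin.val_rev]
      have := a.2
      omega
  · rw [if_neg h, if_neg, Rat.cast_zero]
    intro h2
    apply h
    apply Fin.ext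
    rw [Fin.val_rev]
    omega

theorem JR_en (r : ℕ) (x : ℝ) : JR r * en r x = (en r (-x))ᵀ * JR r := by
  ext a b
  rw [Matrix.mul_apply, Matrix.mul_apply, Finset.sum_eq_single (Fin.rev a),
    Finset.sum_eq_single (Fin.rev b)]
  · rw [JR_apply, JR_apply, if_pos rfl, if_pos (Fin.rev_rev b).symm, Matrix.transpose_apply]
    have ha := a.2
    have hb := b.2
    simp only [en, Rat.smul_def, Rat.cast_inv, Rat.cast_natCast]
    by_cases h : Fin.rev a ≤ b
    · have h1 : ((Fin.rev a : Fin r) : ℕ) ≤ b := h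
      rw [Fin.val_rev] at h1
      have h2 : Fin.rev b ≤ a := by
        change ((Fin.rev b : Fin r) : ℕ) ≤ a
        rw [Fin.val_rev]
        omega
      rw [if_pos h, if_pos h2, Fin.val_rev, Fin.val_rev]
      have h3 : (b : ℕ) - (r - (a + 1)) = a - (r - (b + 1)) := by omega
      rw [h3]
      have h4 : (-x) ^ ((a : ℕ) - (r - (b + 1))) =
          (-1) ^ ((a : ℕ) - (r - (b + 1))) * x ^ ((a : ℕ) - (r - (b + 1))) := by
        rw [← mul_pow, neg_one_mul]
      have h5 : (-1 : ℝ) ^ (a : ℕ) =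
          (-1) ^ ((a : ℕ) - (r - (b + 1))) * (-1) ^ (r - ((b : ℕ) + 1)) := by
        rw [← pow_add]
        congr 1
        omega
      rw [h4, h5]
      ring
    · have h1 : ¬ ((Fin.rev a : Fin r) : ℕ) ≤ b := h
      rw [Fin.val_rev] at h1
      have h2 : ¬ Fin.rev b ≤ a := by
        change ¬ ((Fin.rev b : Fin r) : ℕ) ≤ a
        rw [Fin.val_rev]
        omega
      rw [if_neg h, if_neg h2, mul_zero, zero_mul]
  · intro c _ hc
    rw [JR_apply, if_neg, mul_zero]
    intro h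
    apply hc
    rw [h, Fin.rev_rev]
  · intro h
    exact absurd (Finset.mem_univ _) h
  · intro c _ hc
    rw [JR_apply, if_neg hc, zero_mul]
  · intro h
    exact absurd (Finset.mem_univ _) h

theorem JR_symm (s : ℕ) : (JR (2 * s + 1))ᵀ = JR (2 * s + 1) := by
  ext a b
  rw [Matrix.transpose_apply, JR_apply, JR_apply]
  by_cases h : b = Fin.rev a
  · rw [if_pos h, if_pos (by rw [h, Fin.rev_rev]), h, Fin.val_rev]
    have ha := a.2
    have h1 : (-1 : ℝ) ^ (2 * s + 1 - ((a : ℕ) + 1)) * (-1) ^ (a : ℕ) = 1 := by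
      rw [← pow_add]
      have : 2 * s + 1 - ((a : ℕ) + 1) + a = 2 * s := by omega
      rw [this, pow_mul]
      norm_num
    rcases neg_one_pow_eq_or ℝ (a : ℕ) with h2 | h2 <;> rw [h2] at h1 ⊢ <;> linarith
  · rw [if_neg h, if_neg]
    intro h1
    apply h
    rw [h1, Fin.rev_rev]

theorem JR_sq (s : ℕ) : JR (2 * s + 1) * JR (2 * s + 1) = 1 := by
  ext a b
  rw [Matrix.mul_apply, Finset.sum_eq_single (Fin.rev a)]
  · rw [JR_apply, JR_apply, if_pos rfl, Fin.rev_rev, Matrix.one_apply]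
    by_cases h : b = a
    · rw [if_pos h, if_pos h.symm, ← pow_add, Fin.val_rev]
      have ha := a.2
      have : (a : ℕ) + (2 * s + 1 - (a + 1)) = 2 * s := by omega
      rw [this, pow_mul]
      norm_num
    · rw [if_neg h, if_neg (fun h1 => h h1.symm), mul_zero]
  · intro c _ hc
    rw [JR_apply, if_neg hc, zero_mul]
  · intro h
    exact absurd (Finset.mem_univ _) h

/-! ### skew matrices -/

/-- the reflection along `w` -/
noncomputable def rf {r : ℕ} (K : Matrix (Fin r) (Fin r) ℝ) (w : Fin r → ℝ) :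
    Matrix (Fin r) (Fin r) ℝ :=
  1 - (2 : ℝ) • vecMulVec w (K *ᵥ w)

theorem skew_dot {r : ℕ} {M : Matrix (Fin r) (Fin r) ℝ} (hM : Mᵀ = -M) (x y : Fin r → ℝ) :
    x ⬝ᵥ (M *ᵥ y) = -(y ⬝ᵥ (M *ᵥ x)) := by
  rw [dotProduct_mulVec, ← mulVec_transpose, hM, neg_mulVec, neg_dotProduct, dotProduct_comm]

theorem skew_self {r : ℕ} {M : Matrix (Fin r) (Fin r) ℝ} (hM : Mᵀ = -M) (x : Fin r → ℝ) :
    x ⬝ᵥ (M *ᵥ x) = 0 := by
  have := skew_dot hM x x
  linarith

theorem sym_dot {r : ℕ} {K : Matrix (Fin r) (Fin r) ℝ} (hK : Kᵀ = K) (x y : Fin r → ℝ) :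
    x ⬝ᵥ (K *ᵥ y) = y ⬝ᵥ (K *ᵥ x) := by
  rw [dotProduct_mulVec, ← mulVec_transpose, hK, dotProduct_comm]

theorem rf_transpose {r : ℕ} (K : Matrix (Fin r) (Fin r) ℝ) (w : Fin r → ℝ) :
    (rf K w)ᵀ = 1 - (2 : ℝ) • vecMulVec (K *ᵥ w) w := by
  rw [rf, transpose_sub, transpose_one, transpose_smul, transpose_vecMulVec]

/-- the action of a reflection on skew matrices -/
theorem rf_act {r : ℕ} (K M : Matrix (Fin r) (Fin r) ℝ) (hM : Mᵀ = -M) (w : Fin r → ℝ) :
    rf K w * M * (rf K w)ᵀ = M + (2 : ℝ) • (vecMulVec w (M *ᵥ (K *ᵥ w)) -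
      vecMulVec (M *ᵥ (K *ᵥ w)) w) := by
  rw [rf_transpose, rf]
  set k := K *ᵥ w
  set z := M *ᵥ k with hz
  have h1 : k ᵥ* M = -z := by
    rw [← mulVec_transpose, hM, neg_mulVec]
  have h2 : (1 - (2 : ℝ) • vecMulVec w k) * M = M + (2 : ℝ) • vecMulVec w z := by
    rw [sub_mul, one_mul, smul_mul_assoc, vecMulVec_mul, h1, vecMulVec_neg, smul_neg, sub_neg_eq_add]
  have h3 : z ⬝ᵥ k = 0 := by
    rw [dotProduct_comm]
    exact skew_self hM k
  rw [h2, mul_sub, mul_one, mul_smul_comm, add_mul, mul_vecMulVec, ← hz, smul_mul_assoc,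
    vecMulVec_mul_vecMulVec, h3, zero_smul, vecMulVec_zero, smul_zero, add_zero, smul_sub]
  abel

theorem trace_skew {r : ℕ} {X : Matrix (Fin r) (Fin r) ℝ} (hX : Xᵀ = -X) (w z : Fin r → ℝ) :
    trace (X * (vecMulVec w z - vecMulVec z w)) = 2 * ((X *ᵥ w) ⬝ᵥ z) := by
  rw [mul_sub, mul_vecMulVec, mul_vecMulVec, trace_sub, trace_vecMulVec, trace_vecMulVec]
  have h := skew_dot hX w z
  rw [dotProduct_comm (X *ᵥ z) w, h, dotProduct_comm (X *ᵥ w) z]
  ring

theorem rf_mulVec {r : ℕ} (K : Matrix (Fin r) (Fin r) ℝ) (hK : Kᵀ = K) (w u : Fin r → ℝ) :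
    rf K w *ᵥ u = u - (2 * (w ⬝ᵥ (K *ᵥ u))) • w := by
  rw [rf, sub_mulVec, one_mulVec, smul_mulVec, vecMulVec_mulVec, op_smul_eq_smul, smul_smul,
    dotProduct_comm, sym_dot hK]

theorem rf_sq {r : ℕ} (K : Matrix (Fin r) (Fin r) ℝ) (w : Fin r → ℝ)
    (hw : w ⬝ᵥ (K *ᵥ w) = 1) : rf K w * rf K w = 1 := by
  rw [rf, mul_sub, mul_one, sub_mul, one_mul, smul_mul_smul_comm, vecMulVec_mul_vecMulVec,
    dotProduct_comm, hw, one_smul]
  module

theorem rf_K {r : ℕ} (K : Matrix (Fin r) (Fin r) ℝ) (hK : Kᵀ = K) (w : Fin r → ℝ) :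
    K * rf K w = (rf K w)ᵀ * K := by
  rw [rf_transpose, rf, mul_sub, mul_one, sub_mul, one_mul, mul_smul_comm, smul_mul_assoc,
    mul_vecMulVec, vecMulVec_mul, ← mulVec_transpose, hK]

theorem rf_conj {r : ℕ} (K : Matrix (Fin r) (Fin r) ℝ) (hK : Kᵀ = K) (d b : Fin r → ℝ)
    (hd : d ⬝ᵥ (K *ᵥ d) = 1) : rf K (rf K d *ᵥ b) = rf K d * rf K b * rf K d := by
  have h1 : K *ᵥ (rf K d *ᵥ b) = (K *ᵥ b) ᵥ* rf K d := by
    rw [← mulVec_transpose, mulVec_mulVec, mulVec_mulVec, rf_K K hK]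
  have h2 : rf K d * rf K b * rf K d =
      rf K d * rf K d - (2 : ℝ) • vecMulVec (rf K d *ᵥ b) (K *ᵥ (rf K d *ᵥ b)) := by
    rw [h1, ← vecMulVec_mul, ← mul_vecMulVec]
    conv_lhs => rw [rf.eq_1 K b]
    rw [mul_sub, mul_one, sub_mul, mul_smul_comm, smul_mul_assoc]
  rw [h2, rf_sq K d hd]
  rfl

/-- Lemma Q -/
theorem lemQ {r : ℕ} (K : Matrix (Fin r) (Fin r) ℝ) (hK : Kᵀ = K) (v : ℝ → Fin r → ℝ)
    (hv : PCurve v) (hn : ∀ a, v a ⬝ᵥ (K *ᵥ v a) = 1)
    (B : Matrix (Fin r) (Fin r) ℝ) (h0 : ∀ b, v b ⬝ᵥ (B *ᵥ v b) = 0)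
    (h1 : ∀ d b, (rf K (v d) *ᵥ v b) ⬝ᵥ (B *ᵥ (rf K (v d) *ᵥ v b)) = 0) : B + Bᵀ = 0 := by
  have key : ∀ b, (B + Bᵀ) *ᵥ v b = 0 := by
    intro b
    have hne : K *ᵥ v b ≠ 0 := by
      intro h
      have := hn b
      rw [h, dotProduct_zero] at this
      exact zero_ne_one this
    refine PCurve.mul hv hv _ _ hne fun d => ?_
    have e := h1 d b
    rw [rf_mulVec K hK] at e
    rw [dotProduct_comm (K *ᵥ v b) (v d), dotProduct_comm ((B + Bᵀ) *ᵥ v b) (v d), add_mulVec,
      dotProduct_add, mulVec_transpose, dotProduct_comm (v d) (v b ᵥ* B), ← dotProduct_mulVec]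
    set t := v d ⬝ᵥ (K *ᵥ v b)
    simp only [sub_dotProduct, dotProduct_sub, mulVec_sub, mulVec_smul, smul_dotProduct,
      dotProduct_smul, smul_eq_mul, h0] at e
    linarith
  ext i j
  have h2 : (B + Bᵀ) i = 0 := PCurve.zero hv _ fun b => congrFun (key b) i
  rw [h2]
  rfl

theorem pq_zero {r : ℕ} (p q : Fin r → ℝ) (h : ∀ i j, p i * q j + q i * p j = 0) (i j : Fin r) :
    p i * q j = 0 := by
  have h1 := h i j
  have h2 := h i i
  have h3 : p i * q i = 0 := by linarith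
  have h4 : (p i * q j) * (p i * q j) = 0 := by
    have : (p i * q j) * (p i * q j) = -((p i * q i) * (q j * p j)) + (p i * q j) * (p i * q j + q i * p j) := by
      ring
    rw [this, h1, h3]
    ring
  exact mul_self_eq_zero.mp h4

/-- irreducibility of the exterior square -/
theorem irr {r : ℕ} (K : Matrix (Fin r) (Fin r) ℝ) (hK : Kᵀ = K)
    (hKi : ∀ x : Fin r → ℝ, K *ᵥ x = 0 → x = 0) (v : ℝ → Fin r → ℝ)
    (hv : PCurve v) (hn : ∀ a, v a ⬝ᵥ (K *ᵥ v a) = 1)
    (G : Submonoid (Matrix (Fin r) (Fin r) ℝ)) (hG : ∀ a, rf K (v a) ∈ G)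
    (X M : Matrix (Fin r) (Fin r) ℝ) (hX : Xᵀ = -X) (hM : Mᵀ = -M)
    (h : ∀ g ∈ G, trace (X * (g * M * gᵀ)) = 0) : X = 0 ∨ M = 0 := by
  -- one reflection
  have hstep : ∀ g ∈ G, ∀ w, rf K w ∈ G →
      (X *ᵥ w) ⬝ᵥ ((g * M * gᵀ) *ᵥ (K *ᵥ w)) = 0 := by
    intro g hg w hw
    have hM' : (g * M * gᵀ)ᵀ = -(g * M * gᵀ) := by
      rw [transpose_mul, transpose_mul, transpose_transpose, hM, neg_mul, mul_neg, mul_assoc]
    have e1 := h g hg
    have e2 := h (rf K w * g) (G.mul_mem hw hg)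
    have e3 : rf K w * g * M * (rf K w * g)ᵀ = rf K w * (g * M * gᵀ) * (rf K w)ᵀ := by
      rw [transpose_mul]
      simp only [mul_assoc]
    rw [e3, rf_act K _ hM' w, mul_add, mul_smul_comm, trace_add, trace_smul, trace_skew hX, e1,
      zero_add, smul_eq_mul] at e2
    linarith
  -- two reflections
  have hpq : ∀ e, ∀ i j, (X *ᵥ v e) i * (K *ᵥ (M *ᵥ (K *ᵥ v e))) j = 0 := by
    intro e
    set u := v e with hu
    set k := K *ᵥ u with hk
    set z := M *ᵥ k with hz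
    have hB : ∀ w, rf K w ∈ G →
        w ⬝ᵥ ((X * (vecMulVec u z - vecMulVec z u) * K) *ᵥ w) = 0 := by
      intro w hw
      have e1 := hstep 1 G.one_mem w hw
      have e2 := hstep (rf K u) (hG e) w hw
      rw [one_mul, transpose_one, mul_one] at e1
      rw [rf_act K M hM u, ← hk, ← hz, add_mulVec, dotProduct_add, e1, zero_add, smul_mulVec,
        dotProduct_smul, smul_eq_mul] at e2
      have e3 : (X *ᵥ w) ⬝ᵥ ((vecMulVec u z - vecMulVec z u) *ᵥ (K *ᵥ w)) = 0 := by linarith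
      rw [← mulVec_mulVec, ← mulVec_mulVec, skew_dot hX, dotProduct_comm, e3, neg_zero]
    have hsym := lemQ K hK v hv hn _ (fun b => hB _ (hG b)) (fun d b => hB _ (by
      rw [rf_conj K hK _ _ (hn d)]
      exact G.mul_mem (G.mul_mem (hG d) (hG b)) (hG d)))
    set p := X *ᵥ u with hp
    set q := K *ᵥ z with hq
    set ρ := X *ᵥ z with hρ
    have hBe : X * (vecMulVec u z - vecMulVec z u) * K = vecMulVec p q - vecMulVec ρ k := by
      rw [mul_sub, sub_mul, mul_vecMulVec, mul_vecMulVec, vecMulVec_mul, vecMulVec_mul,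
        ← mulVec_transpose, ← mulVec_transpose, hK]
    rw [hBe] at hsym
    have hij : ∀ i j, p i * q j - ρ i * k j + (q i * p j - k i * ρ j) = 0 := by
      intro i j
      have := congrFun (congrFun hsym i) j
      simp only [Matrix.add_apply, Matrix.sub_apply, Matrix.transpose_apply, vecMulVec_apply,
        Matrix.zero_apply] at this
      linarith
    have ku : k ⬝ᵥ u = 1 := by rw [dotProduct_comm]; exact hn e
    have qu : q ⬝ᵥ u = 0 := by
      rw [dotProduct_comm, hq, sym_dot hK, ← hk, dotProduct_comm]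
      exact skew_self hM k
    have pu : p ⬝ᵥ u = 0 := by
      rw [dotProduct_comm]
      exact skew_self hX u
    have h1 : ∀ i, ρ i + k i * (ρ ⬝ᵥ u) = 0 := by
      intro i
      have e1 : ∑ j, (p i * q j - ρ i * k j + (q i * p j - k i * ρ j)) * u j = 0 := by
        refine Finset.sum_eq_zero fun j _ => ?_
        rw [hij, zero_mul]
      have e2 : ∑ j, (p i * q j - ρ i * k j + (q i * p j - k i * ρ j)) * u j =
          p i * (q ⬝ᵥ u) - ρ i * (k ⬝ᵥ u) + (q i * (p ⬝ᵥ u) - k i * (ρ ⬝ᵥ u)) := by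
        simp only [dotProduct, Finset.mul_sum, ← Finset.sum_sub_distrib, ← Finset.sum_add_distrib]
        refine Finset.sum_congr rfl fun j _ => ?_
        ring
      rw [e2, ku, qu, pu] at e1
      linarith
    have h2 : ρ ⬝ᵥ u = 0 := by
      have e1 : ∑ i, (ρ i + k i * (ρ ⬝ᵥ u)) * u i = 0 := by
        refine Finset.sum_eq_zero fun j _ => ?_
        rw [h1, zero_mul]
      have e2 : ∑ i, (ρ i + k i * (ρ ⬝ᵥ u)) * u i = ρ ⬝ᵥ u + (k ⬝ᵥ u) * (ρ ⬝ᵥ u) := by
        have e3 : (k ⬝ᵥ u) * (ρ ⬝ᵥ u) = ∑ i, k i * u i * (ρ ⬝ᵥ u) := by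
          rw [← Finset.sum_mul]
          rfl
        rw [e3]
        conv_rhs => rw [dotProduct, ← Finset.sum_add_distrib]
        refine Finset.sum_congr rfl fun j _ => ?_
        simp only [dotProduct]
        ring
      rw [e2, ku] at e1
      linarith
    have h3 : ∀ i, ρ i = 0 := by
      intro i
      have := h1 i
      rw [h2] at this
      linarith
    refine pq_zero p q fun i j => ?_
    have := hij i j
    rw [h3, h3] at this
    linarith
  by_cases hX0 : X = 0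
  · exact Or.inl hX0
  right
  obtain ⟨i, hi⟩ : ∃ i, X i ≠ 0 := by
    by_contra hc
    push Not at hc
    apply hX0
    funext i
    exact hc i
  have hKMK : ∀ j, (K * M * K) j = 0 := by
    intro j
    refine PCurve.mul hv hv _ _ hi fun a => ?_
    have := hpq a i j
    rw [mulVec_mulVec, mulVec_mulVec] at this
    exact this
  have h4 : K * M * K = 0 := by
    funext j
    exact hKMK j
  have hKc : ∀ A : Matrix (Fin r) (Fin r) ℝ, K * A = 0 → A = 0 := by
    intro A hA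
    ext i j
    have : K *ᵥ (fun i => A i j) = 0 := by
      funext i
      exact congrFun (congrFun hA i) j
    exact congrFun (hKi _ this) i
  have h5 := hKc (M * K) (by rw [← mul_assoc, h4])
  have h6 : K * Mᵀ = 0 := by
    rw [← hK, ← transpose_mul, h5, transpose_zero]
  have h7 := hKc _ h6
  rw [← transpose_transpose M, h7, transpose_zero]

/-! ### the coordinates `i < j` -/

theorem sum_AI {r : ℕ} (F : Fin r → Fin r → ℝ) (h0 : ∀ i, F i i = 0) :
    ∑ i, ∑ j, F i j = ∑ β : AI r, (F β.1.1 β.1.2 + F β.1.2 β.1.1) := by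
  classical
  have h1 : ∀ G : Fin r → Fin r → ℝ,
      ∑ β : AI r, G β.1.1 β.1.2 = ∑ i, ∑ j, if i < j then G i j else 0 := by
    intro G
    rw [← Fintype.sum_prod_type' (f := fun i j => if i < j then G i j else 0), ← Finset.sum_filter]
    exact (Finset.sum_subtype (Finset.univ.filter fun p : Fin r × Fin r => p.1 < p.2)
      (fun p => by simp) (fun p => G p.1 p.2)).symm
  rw [h1 (fun i j => F i j + F j i)]
  have h2 : ∑ i, ∑ j, (if i < j then F i j + F j i else 0) =
      ∑ i, ∑ j, (if i < j then F i j else 0) + ∑ i, ∑ j, (if j < i then F i j else 0) := by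
    rw [Finset.sum_comm (f := fun i j => if j < i then F i j else 0), ← Finset.sum_add_distrib]
    refine Finset.sum_congr rfl fun i _ => ?_
    rw [← Finset.sum_add_distrib]
    refine Finset.sum_congr rfl fun j _ => ?_
    split_ifs <;> simp
  rw [h2, ← Finset.sum_add_distrib]
  refine Finset.sum_congr rfl fun i _ => ?_
  rw [← Finset.sum_add_distrib]
  refine Finset.sum_congr rfl fun j _ => ?_
  rcases lt_trichotomy i j with h | h | h
  · rw [if_pos h, if_neg (not_lt.mpr h.le), add_zero]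
  · subst h
    simp [h0]
  · rw [if_neg (not_lt.mpr h.le), if_pos h, zero_add]

/-- the skew matrix with the coordinates `x` -/
def sk {r : ℕ} (x : AI r → ℝ) : Matrix (Fin r) (Fin r) ℝ := fun i j =>
  if h : i < j then x ⟨(i, j), h⟩ else if h : j < i then -x ⟨(j, i), h⟩ else 0

theorem sk_lt {r : ℕ} (x : AI r → ℝ) (β : AI r) : sk x β.1.1 β.1.2 = x β := by
  rw [sk, dif_pos β.2]

theorem sk_transpose {r : ℕ} (x : AI r → ℝ) : (sk x)ᵀ = -sk x := by
  ext i j
  rw [Matrix.transpose_apply, Matrix.neg_apply, sk, sk]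
  rcases lt_trichotomy i j with h | h | h
  · rw [dif_neg (not_lt.mpr h.le), dif_pos h, dif_pos h]
  · subst h
    simp
  · rw [dif_pos h, dif_neg (not_lt.mpr h.le), dif_pos h, neg_neg]

theorem skew_diag {r : ℕ} {M : Matrix (Fin r) (Fin r) ℝ} (hM : Mᵀ = -M) (i : Fin r) :
    M i i = 0 := by
  have := congrFun (congrFun hM i) i
  rw [Matrix.transpose_apply, Matrix.neg_apply] at this
  linarith

theorem skew_swap {r : ℕ} {M : Matrix (Fin r) (Fin r) ℝ} (hM : Mᵀ = -M) (i j : Fin r) :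
    M j i = -M i j := by
  have := congrFun (congrFun hM i) j
  rw [Matrix.transpose_apply, Matrix.neg_apply] at this
  exact this

/-- the exterior square acts on skew matrices -/
theorem ex_act {r : ℕ} (g M : Matrix (Fin r) (Fin r) ℝ) (hM : Mᵀ = -M) (β : AI r) :
    (ex g *ᵥ fun α => M α.1.1 α.1.2) β = (g * M * gᵀ) β.1.1 β.1.2 := by
  have h1 : (g * M * gᵀ) β.1.1 β.1.2 = ∑ i, ∑ j, g β.1.1 i * M i j * g β.1.2 j := by
    rw [Matrix.mul_apply, Finset.sum_comm]
    refine Finset.sum_congr rfl fun j _ => ?_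
    rw [Matrix.mul_apply, Finset.sum_mul]
    rfl
  rw [h1, sum_AI _ (fun i => by rw [skew_diag hM]; ring), Matrix.mulVec, dotProduct]
  refine Finset.sum_congr rfl fun α _ => ?_
  rw [ex, skew_swap hM α.1.1 α.1.2]
  ring

theorem irr_ex {r : ℕ} (K : Matrix (Fin r) (Fin r) ℝ) (hK : Kᵀ = K)
    (hKi : ∀ x : Fin r → ℝ, K *ᵥ x = 0 → x = 0) (v : ℝ → Fin r → ℝ)
    (hv : PCurve v) (hn : ∀ a, v a ⬝ᵥ (K *ᵥ v a) = 1)
    (G : Submonoid (Matrix (Fin r) (Fin r) ℝ)) (hG : ∀ a, rf K (v a) ∈ G)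
    (ξ x : AI r → ℝ) (h : ∀ g ∈ G, ξ ⬝ᵥ (ex g *ᵥ x) = 0) : ξ = 0 ∨ x = 0 := by
  have h1 := irr K hK hKi v hv hn G hG (sk ξ) (sk x) (sk_transpose ξ) (sk_transpose x) (by
    intro g hg
    have hM' : (g * sk x * gᵀ)ᵀ = -(g * sk x * gᵀ) := by
      rw [transpose_mul, transpose_mul, transpose_transpose, sk_transpose, neg_mul, mul_neg,
        mul_assoc]
    have h2 : trace (sk ξ * (g * sk x * gᵀ)) =
        ∑ i, ∑ j, sk ξ i j * (g * sk x * gᵀ) j i := rfl
    rw [h2, sum_AI _ (fun i => by rw [skew_diag hM', mul_zero])]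
    have h3 := h g hg
    have h4 : ∑ β : AI r, (sk ξ β.1.1 β.1.2 * (g * sk x * gᵀ) β.1.2 β.1.1 +
        sk ξ β.1.2 β.1.1 * (g * sk x * gᵀ) β.1.1 β.1.2) = -2 * (ξ ⬝ᵥ (ex g *ᵥ x)) := by
      rw [dotProduct, Finset.mul_sum]
      refine Finset.sum_congr rfl fun β _ => ?_
      have h5 : (fun α : AI r => sk x α.1.1 α.1.2) = x := funext fun α => sk_lt x α
      have h6 := ex_act g (sk x) (sk_transpose x) β
      rw [h5] at h6
      rw [h6, skew_swap hM' β.1.1 β.1.2, skew_swap (sk_transpose ξ) β.1.1 β.1.2, sk_lt]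
      ring
    rw [h4, h3, mul_zero])
  rcases h1 with h1 | h1
  · left
    funext β
    rw [← sk_lt ξ β, h1]
    rfl
  · right
    funext β
    rw [← sk_lt x β, h1]
    rfl

/-- the coordinates of `x ∧ y` -/
def wd {r : ℕ} (x y : Fin r → ℝ) : AI r → ℝ := fun β => x β.1.1 * y β.1.2 - x β.1.2 * y β.1.1

/-- the rank one element -/
theorem rank_one {r : ℕ} (a b la lb : Fin r → ℝ) (φ : ℝ) (haa : la ⬝ᵥ a = 1)
    (hab : la ⬝ᵥ b = φ) (hba : lb ⬝ᵥ a = φ) :
    let sa : Matrix (Fin r) (Fin r) ℝ := 1 - (2 : ℝ) • vecMulVec a la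
    let sb : Matrix (Fin r) (Fin r) ℝ := 1 - (2 : ℝ) • vecMulVec b lb
    (8 : ℝ) • vecMulVec (wd a b) (wd la lb) =
      (2 - 4 * φ ^ 2) • ex 1 - (2 - 4 * φ ^ 2) • ex sa - ex sb + ex (sa * sb) + ex (sb * sa) -
        ex (sa * sb * sa) := by
  intro sa sb
  have h1 : sa * sb = 1 - (2 : ℝ) • vecMulVec a la - (2 : ℝ) • vecMulVec b lb +
      (4 * φ) • vecMulVec a lb := by
    simp only [sa, sb]
    rw [mul_sub, mul_one, sub_mul, one_mul, smul_mul_smul_comm, vecMulVec_mul_vecMulVec, hab,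
      vecMulVec_smul]
    module
  have h2 : sb * sa = 1 - (2 : ℝ) • vecMulVec a la - (2 : ℝ) • vecMulVec b lb +
      (4 * φ) • vecMulVec b la := by
    simp only [sa, sb]
    rw [mul_sub, mul_one, sub_mul, one_mul, smul_mul_smul_comm, vecMulVec_mul_vecMulVec, hba,
      vecMulVec_smul]
    module
  have h3 : sa * sb * sa = 1 - (2 : ℝ) • vecMulVec b lb + (4 * φ) • vecMulVec a lb +
      (4 * φ) • vecMulVec b la - (8 * φ ^ 2) • vecMulVec a la := by
    rw [h1]
    simp only [sa]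
    rw [mul_sub, mul_one, mul_smul_comm, add_mul, sub_mul, sub_mul, one_mul]
    simp only [smul_mul_assoc, vecMulVec_mul_vecMulVec, haa, hba, vecMulVec_smul]
    module
  rw [h3, h1, h2]
  ext β α
  simp only [Matrix.smul_apply, Matrix.sub_apply, Matrix.add_apply, ex, wd, vecMulVec_apply,
    smul_eq_mul, sa, sb]
  ring

/-- QUA, abstract form -/
theorem qua_abs {r : ℕ} (hr : 2 ≤ r) (hex : ∀ M M' : Matrix (Fin r) (Fin r) ℝ,
      ex (M * M') = ex M * ex M')
    (K : Matrix (Fin r) (Fin r) ℝ) (hK : Kᵀ = K)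
    (hKi : ∀ x : Fin r → ℝ, K *ᵥ x = 0 → x = 0) (v : ℝ → Fin r → ℝ)
    (hv : PCurve v) (hn : ∀ a, v a ⬝ᵥ (K *ᵥ v a) = 1)
    (G : Submonoid (Matrix (Fin r) (Fin r) ℝ)) (hG : ∀ a, rf K (v a) ∈ G)
    (C : Matrix (AI r) (AI r) ℝ) (hC : ∀ g ∈ G, ∑ β, ∑ α, C β α * ex g β α = 0) : C = 0 := by
  -- the functional
  let Ψ : Matrix (AI r) (AI r) ℝ →ₗ[ℝ] ℝ :=
    { toFun := fun X => ∑ β, ∑ α, C β α * X β α
      map_add' := fun X Y => by
        simp only [Matrix.add_apply, mul_add, Finset.sum_add_distrib]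
      map_smul' := fun t X => by
        simp only [Matrix.smul_apply, smul_eq_mul, RingHom.id_apply, Finset.mul_sum]
        refine Finset.sum_congr rfl fun β _ => Finset.sum_congr rfl fun α _ => ?_
        ring }
  have hΨ : ∀ g ∈ G, Ψ (ex g) = 0 := hC
  -- a second point of the curve which is not proportional to the first one
  obtain ⟨b, hb⟩ : ∃ b, wd (v 0) (v b) ≠ 0 := by
    by_contra hc
    push Not at hc
    have h1 : ∀ i j : Fin r, i < j → v 0 i = 0 ∧ v 0 j = 0 := by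
      intro i j hij
      have h2 : (v 0 i) • (Pi.single j (1 : ℝ)) - (v 0 j) • (Pi.single i (1 : ℝ)) = 0 := by
        refine PCurve.zero hv _ fun a => ?_
        have h3 := congrFun (hc a) ⟨(i, j), hij⟩
        simp only [wd, Pi.zero_apply] at h3
        rw [sub_dotProduct, smul_dotProduct, smul_dotProduct, single_one_dotProduct,
          single_one_dotProduct, smul_eq_mul, smul_eq_mul]
        exact h3
      constructor
      · have := congrFun h2 j
        simpa [Pi.single_apply, hij.ne'] using this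
      · have := congrFun h2 i
        simpa [Pi.single_apply, hij.ne] using this
    have h2 : v 0 = 0 := by
      funext i
      by_cases hi : (i : ℕ) = 0
      · have hlt : i < ⟨1, by omega⟩ := by
          change (i : ℕ) < 1
          omega
        exact (h1 i _ hlt).1
      · have hlt : (⟨0, by omega⟩ : Fin r) < i := by
          change 0 < (i : ℕ)
          omega
        exact (h1 _ i hlt).2
    have := hn 0
    rw [h2, zero_dotProduct] at this
    exact zero_ne_one this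
  set p := v 0 with hp
  set q := v b with hq
  have hT := rank_one p q (K *ᵥ p) (K *ᵥ q) (p ⬝ᵥ (K *ᵥ q)) (by
    rw [dotProduct_comm]
    exact hn 0) (by rw [dotProduct_comm, sym_dot hK]) (by rw [dotProduct_comm])
  simp only at hT
  have hsa : (1 - (2 : ℝ) • vecMulVec p (K *ᵥ p)) ∈ G := hG 0
  have hsb : (1 - (2 : ℝ) • vecMulVec q (K *ᵥ q)) ∈ G := hG b
  set sa : Matrix (Fin r) (Fin r) ℝ := 1 - (2 : ℝ) • vecMulVec p (K *ᵥ p)
  set sb : Matrix (Fin r) (Fin r) ℝ := 1 - (2 : ℝ) • vecMulVec q (K *ᵥ q)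
  set X := wd p q with hX
  set Λ := wd (K *ᵥ p) (K *ᵥ q) with hΛ
  have hΛ0 : Λ ≠ 0 := by
    intro h0
    apply hb
    have hM : (K * (vecMulVec p q - vecMulVec q p)) * Kᵀ = 0 := by
      have e1 : (K * (vecMulVec p q - vecMulVec q p)) * Kᵀ =
          vecMulVec (K *ᵥ p) (K *ᵥ q) - vecMulVec (K *ᵥ q) (K *ᵥ p) := by
        rw [mul_sub, sub_mul, mul_vecMulVec, mul_vecMulVec, vecMulVec_mul, vecMulVec_mul,
          ← mulVec_transpose, ← mulVec_transpose, transpose_transpose]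
      rw [e1]
      ext i j
      rw [Matrix.sub_apply, vecMulVec_apply, vecMulVec_apply, Matrix.zero_apply]
      rcases lt_trichotomy i j with h | h | h
      · have := congrFun h0 ⟨(i, j), h⟩
        simp only [Λ, wd, Pi.zero_apply] at this
        linarith
      · rw [h]
        ring
      · have := congrFun h0 ⟨(j, i), h⟩
        simp only [Λ, wd, Pi.zero_apply] at this
        linarith
    have hKc : ∀ A : Matrix (Fin r) (Fin r) ℝ, K * A = 0 → A = 0 := by
      intro A hA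
      ext i j
      have : K *ᵥ (fun i => A i j) = 0 := by
        funext i
        exact congrFun (congrFun hA i) j
      exact congrFun (hKi _ this) i
    rw [mul_assoc] at hM
    have h5 := hKc _ hM
    have h6 : K * (vecMulVec p q - vecMulVec q p)ᵀ = 0 := by
      have := congrArg transpose h5
      rwa [transpose_mul, transpose_transpose, transpose_zero] at this
    have h7 := hKc _ h6
    funext β
    have := congrFun (congrFun h7 β.1.2) β.1.1
    simp only [Matrix.transpose_apply, Matrix.sub_apply, vecMulVec_apply, Matrix.zero_apply] at this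
    simp only [X, wd, Pi.zero_apply]
    linarith
  have h1 : ∀ g ∈ G, ∀ g' ∈ G, Ψ (ex g * vecMulVec X Λ * ex g') = 0 := by
    intro g hg g' hg'
    have e1 : ∀ h ∈ G, Ψ (ex g * ex h * ex g') = 0 := by
      intro h hh
      rw [← hex, ← hex]
      exact hΨ _ (G.mul_mem (G.mul_mem hg hh) hg')
    have e2 : (8 : ℝ) * Ψ (ex g * vecMulVec X Λ * ex g') =
        Ψ (ex g * ((8 : ℝ) • vecMulVec X Λ) * ex g') := by
      rw [mul_smul_comm, smul_mul_assoc, map_smul, smul_eq_mul]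
    rw [hT] at e2
    simp only [mul_sub, mul_add, sub_mul, add_mul, mul_smul_comm, smul_mul_assoc, map_sub,
      map_add, map_smul] at e2
    rw [e1 _ G.one_mem, e1 _ hsa, e1 _ hsb, e1 _ (G.mul_mem hsa hsb), e1 _ (G.mul_mem hsb hsa),
      e1 _ (G.mul_mem (G.mul_mem hsa hsb) hsa)] at e2
    simp only [smul_zero, sub_zero, add_zero] at e2
    linarith
  have h2 : ∀ g' ∈ G, C *ᵥ (Λ ᵥ* ex g') = 0 := by
    intro g' hg'
    have h3 := irr_ex K hK hKi v hv hn G hG (C *ᵥ (Λ ᵥ* ex g')) X (by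
      intro g hg
      have h4 := h1 g hg g' hg'
      rw [mul_vecMulVec, vecMulVec_mul] at h4
      have h5 : Ψ (vecMulVec (ex g *ᵥ X) (Λ ᵥ* ex g')) =
          (C *ᵥ (Λ ᵥ* ex g')) ⬝ᵥ (ex g *ᵥ X) := by
        change ∑ β, ∑ α, C β α * (vecMulVec (ex g *ᵥ X) (Λ ᵥ* ex g')) β α = _
        rw [dotProduct]
        refine Finset.sum_congr rfl fun β _ => ?_
        rw [Matrix.mulVec, dotProduct, Finset.sum_mul]
        refine Finset.sum_congr rfl fun α _ => ?_
        rw [vecMulVec_apply]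
        ring
      rw [← h5, h4])
    rcases h3 with h3 | h3
    · exact h3
    · exact absurd h3 hb
  funext β
  have h3 := irr_ex K hK hKi v hv hn G hG Λ (C β) (by
    intro g hg
    have h4 := congrFun (h2 g hg) β
    rw [dotProduct_mulVec, dotProduct_comm]
    exact h4)
  rcases h3 with h3 | h3
  · exact absurd h3 hΛ0
  · exact h3

/-- QUA -/
theorem qua (hE : ExmStmt) : QuaStmt := by
  intro s v l c hs hl hlv hl0 hv0 C hC
  have hr : 2 ≤ 2 * s + 1 := by omega
  set K : Matrix (Fin (2 * s + 1)) (Fin (2 * s + 1)) ℝ := c • JR (2 * s + 1) with hKd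
  have hlK : l = K *ᵥ v := by
    rw [hKd, smul_mulVec]
    exact hl
  have hK : Kᵀ = K := by
    rw [hKd, transpose_smul, JR_symm]
  have hc : c ≠ 0 := by
    intro h0
    rw [hlK, hKd, h0, zero_smul, zero_mulVec, zero_dotProduct] at hlv
    exact zero_ne_one hlv
  have hKi : ∀ x, K *ᵥ x = 0 → x = 0 := by
    intro x hx
    have h1 : JR (2 * s + 1) *ᵥ (K *ᵥ x) = c • x := by
      rw [hKd, smul_mulVec, mulVec_smul, mulVec_mulVec, JR_sq, one_mulVec]
    rw [hx, mulVec_zero] at h1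
    exact (smul_eq_zero.mp h1.symm).resolve_left hc
  have hKen : ∀ a, K * en (2 * s + 1) (-a) = (en (2 * s + 1) a)ᵀ * K := by
    intro a
    rw [hKd, smul_mul_assoc, mul_smul_comm, JR_en, neg_neg]
  have hle : ∀ a, l ᵥ* en (2 * s + 1) a = K *ᵥ (en (2 * s + 1) (-a) *ᵥ v) := by
    intro a
    rw [hlK, ← mulVec_transpose, mulVec_mulVec, mulVec_mulVec, hKen]
  have hrf : ∀ a, refl v l a = rf K (en (2 * s + 1) (-a) *ᵥ v) := by
    intro a
    rw [refl, rf, mul_sub, mul_one, sub_mul, en_neg_mul, mul_smul_comm, smul_mul_assoc,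
      mul_vecMulVec, vecMulVec_mul, hle]
  have hlast : ∀ i : Fin (2 * s + 1), i ≤ ⟨2 * s, Nat.lt_succ_self _⟩ := by
    intro i
    change (i : ℕ) ≤ 2 * s
    omega
  refine qua_abs hr (hE.1 (2 * s + 1) ℝ) K hK hKi (fun a => en (2 * s + 1) (-a) *ᵥ v)
    (pcurve_v v _ hlast hv0) (fun a => ?_) (Submonoid.closure (Set.range (refl v l)))
    (fun a => ?_) C (fun g hg => ?_)
  · rw [← hle, dotProduct_comm, ← dotProduct_mulVec, mulVec_mulVec]
    have := en_neg_mul (2 * s + 1) (-a)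
    rw [neg_neg] at this
    rw [this, one_mulVec, hlv]
  · rw [← hrf]
    exact Submonoid.subset_closure ⟨a, rfl⟩
  · obtain ⟨L, rfl⟩ : ∃ L : List ℝ, (L.map (refl v l)).prod = g := by
      induction hg using Submonoid.closure_induction with
      | mem x hx =>
        obtain ⟨a, rfl⟩ := hx
        exact ⟨[a], by simp⟩
      | one => exact ⟨[], by simp⟩
      | mul x y _ _ hx hy =>
        obtain ⟨L1, h1⟩ := hx
        obtain ⟨L2, h2⟩ := hy
        exact ⟨L1 ++ L2, by rw [List.map_append, List.prod_append, h1, h2]⟩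
    exact hC L

end Pool.Agent.MT100B.H6
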